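import Pool.Agent.Helper20.NP.Stmts

set_option autoImplicit false

namespace Pool.Agent.Helper20.NP

open Pool.Agent.Helper21.DN

universe u

theorem dife_smul_top (n : ℕ) (hn : 0 < n) : n • (⊤ : WithTop ℤ) = ⊤ := by
  obtain ⟨m, rfl⟩ : ∃ m, n = m + 1 := ⟨n - 1, by omega⟩
  rw [succ_nsmul, WithTop.add_top]

theorem dife_smul_coe (n : ℕ) (a : ℤ) : n • ((a : ℤ) : WithTop ℤ) = (((n : ℤ) * a : ℤ) : WithTop ℤ) := by
  rw [← WithTop.coe_nsmul, nsmul_eq_mul]

theorem dife_smul_mono (n : ℕ) (a b : WithTop ℤ) (h : a ≤ b) : n • a ≤ n • b := by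
  induction n with
  | zero => simp
  | succ n ih =>
    rw [succ_nsmul, succ_nsmul]
    exact add_le_add ih h

theorem dife_cancel_coe (n : ℕ) (hn : 0 < n) (a : WithTop ℤ) (m : ℤ)
    (h : n • a = (((n : ℤ) * m : ℤ) : WithTop ℤ)) : a = (m : WithTop ℤ) := by
  have hn' : (n : ℤ) ≠ 0 := by omega
  induction a using WithTop.recTopCoe with
  | top =>
    rw [dife_smul_top n hn] at h
    exact absurd h WithTop.top_ne_coe
  | coe a =>
    rw [dife_smul_coe, WithTop.coe_inj] at h
    rw [mul_left_cancel₀ hn' h]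

theorem dife_le (n : ℕ) (hn : 0 < n) (a b : WithTop ℤ) (c : ℤ)
    (h : n • a ≤ n • b + ((c : ℤ) : WithTop ℤ)) : a ≤ b + ((|c| : ℤ) : WithTop ℤ) := by
  have hn' : (1 : ℤ) ≤ (n : ℤ) := by omega
  induction b using WithTop.recTopCoe with
  | top =>
    rw [WithTop.top_add]
    exact le_top
  | coe b =>
    induction a using WithTop.recTopCoe with
    | top =>
      rw [dife_smul_top n hn, dife_smul_coe, ← WithTop.coe_add] at h
      exact absurd (top_le_iff.1 h) WithTop.coe_ne_top
    | coe a =>
      rw [dife_smul_coe, dife_smul_coe, ← WithTop.coe_add, WithTop.coe_le_coe] at h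
      rw [← WithTop.coe_add, WithTop.coe_le_coe]
      by_contra hc
      have h1 : b + |c| + 1 ≤ a := by omega
      have h2 : (n : ℤ) * (b + |c| + 1) ≤ (n : ℤ) * a := mul_le_mul_of_nonneg_left h1 (by omega)
      have h3 : 0 ≤ |c| := abs_nonneg c
      have h4 : c ≤ |c| := le_abs_self c
      nlinarith

/-- the restriction of a derivation to an intermediate field -/
theorem dife_restrict {K L : Type u} [Field K] [Field L] [Algebra K L] (E : IntermediateField K L)
    (D : Derivation ℤ L L) (h : ∀ x : E, D (x : L) ∈ E) :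
    ∃ D' : Derivation ℤ E E, ∀ x : E, ((D' x : E) : L) = D (x : L) := by
  let f : E →+ E :=
    { toFun := fun x => ⟨D (x : L), h x⟩
      map_zero' := by
        apply Subtype.ext
        show D ((0 : E) : L) = ((0 : E) : L)
        rw [ZeroMemClass.coe_zero, map_zero]
      map_add' := by
        intro x y
        apply Subtype.ext
        show D ((x + y : E) : L) = D (x : L) + D (y : L)
        rw [AddMemClass.coe_add, map_add] }
  refine ⟨Derivation.mk' f.toIntLinearMap ?_, ?_⟩
  · intro a b
    apply Subtype.ext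
    show D ((a * b : E) : L) = (a : L) * D (b : L) + (b : L) * D (a : L)
    rw [MulMemClass.coe_mul, Derivation.leibniz]
    rfl
  · intro x
    rfl

theorem st_DIFE (hDC : ST_DC.{u}) (hDIFT : ST_DIFT.{u}) : ST_DIFE.{u} := by
  classical
  intro p _ k K L _ _ _ _ _ _ _ _ κ v hR hp D e hD E
  have hppr : p.Prime := Fact.out
  obtain ⟨vE, hTE, hvE⟩ := hR.sub E
  have hn : 0 < Module.finrank E L := Module.finrank_pos
  -- D preserves E
  have hDE : ∀ x : E, D (x : L) ∈ E := by
    intro x
    have h1 : D (x : L) ∈ IntermediateField.fixedField E.fixingSubgroup := by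
      rw [IntermediateField.mem_fixedField_iff]
      intro τ hτ
      rw [← hD.comm]
      congr 1
      exact hτ x
    rwa [IsGalois.fixedField_fixingSubgroup] at h1
  obtain ⟨D', hD'⟩ := dife_restrict E D hDE
  -- continuity
  have hc : ∀ x : E, vE x ≤ vE (D' x) +
      ((|(Module.finrank K L : ℤ) * e + (S1 (fun σ : L ≃ₐ[K] L => s v σ) : ℤ)| : ℤ) : WithTop ℤ) := by
    intro x
    apply dife_le (Module.finrank E L) hn
    rw [← hvE, ← hvE, hD']
    exact (hDIFT p k K L κ v hR hp D e hD).le (x : L)
  -- an element of K with finite nonzero derivative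
  obtain ⟨x, hx1, hx0⟩ : ∃ x : E, 1 ≤ vE x ∧ D' x ≠ 0 := by
    obtain ⟨vB, hTB, hvB⟩ := hR.sub ⊥
    obtain ⟨π, hπ⟩ := hTB.unif
    obtain ⟨y, hy⟩ := IntermediateField.mem_bot.1 π.2
    have h1 : v (algebraMap K L y) = (((Module.finrank K L : ℤ) * 1 : ℤ) : WithTop ℤ) := by
      rw [hy, hvB, hπ, IntermediateField.finrank_bot']
      exact dife_smul_coe _ 1
    have h2 := hD.eq y 1 h1 (by
      intro h
      have := Int.le_of_dvd one_pos h
      have := hppr.two_le
      omega)
    refine ⟨algebraMap K E y, ?_, ?_⟩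
    · have h3 : v (algebraMap K L y) = Module.finrank E L • vE (algebraMap K E y) := by
        rw [← hvE]
        rfl
      by_contra hcon
      have h4 : vE (algebraMap K E y) < 1 := not_le.1 hcon
      have h5 : Module.finrank E L • vE (algebraMap K E y) ≤ 0 := by
        have h6 : vE (algebraMap K E y) ≤ 0 := by
          generalize hg : vE (algebraMap K E y) = g at h4
          induction g using WithTop.recTopCoe with
          | top => exact absurd h4 (by simp)
          | coe g =>
            have h7 : g < 1 := by exact_mod_cast h4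
            have h8 : g ≤ 0 := by omega
            exact_mod_cast h8
        have h9 := dife_smul_mono (Module.finrank E L) _ _ h6
        rwa [smul_zero] at h9
      rw [← h3, h1, mul_one] at h5
      have h10 : ((Module.finrank K L : ℤ)) ≤ 0 := by exact_mod_cast h5
      have h11 : 0 < Module.finrank K L := Module.finrank_pos
      omega
    · intro h3
      have h4 : D (algebraMap K L y) = 0 := by
        have h5 := hD' (algebraMap K E y)
        rw [h3] at h5
        exact h5.symm
      rw [h4, v.map_zero] at h2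
      exact absurd h2 WithTop.top_ne_coe
  -- a uniformizer with nonzero derivative
  obtain ⟨π, hπ, hπ0⟩ : ∃ π : E, vE π = 1 ∧ D' π ≠ 0 := by
    obtain ⟨π, hπ⟩ := hTE.unif
    by_cases h : D' π = 0
    · refine ⟨π * (1 + x), ?_, ?_⟩
      · have h1 : vE (1 + x) = 0 := by
          have h2 : vE (1 : E) < vE x := by
            rw [vE.map_one]
            exact lt_of_lt_of_le zero_lt_one hx1
          rw [vE.map_add_eq_of_lt_left h2, vE.map_one]
        rw [vE.map_mul, hπ, h1, add_zero]
      · rw [Derivation.leibniz, h, smul_zero, add_zero, map_add, Derivation.map_one_eq_zero, zero_add,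
          smul_eq_mul]
        refine mul_ne_zero ?_ hx0
        intro h2
        rw [h2, vE.map_zero] at hπ
        exact absurd hπ (by simp)
    · exact ⟨π, hπ, h⟩
  obtain ⟨a, ha⟩ : ∃ a : ℤ, vE (D' π) = (a : WithTop ℤ) := by
    have h1 : vE (D' π) ≠ ⊤ := by
      intro h
      exact hπ0 ((vE.top_iff).1 h)
    obtain ⟨a, ha⟩ := WithTop.ne_top_iff_exists.1 h1
    exact ⟨a, ha.symm⟩
  have hDV := hDC p k E ((algebraMap K E).comp κ) vE hTE D' _ (1 - a) π hc hπ (by
    rw [ha]
    congr 1
    ring)
  refine ⟨1 - a, ⟨?_, ?_, ?_⟩⟩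
  · intro σ x
    exact hD.comm (σ.restrictScalars K) x
  · intro x
    show v (x : L) ≤ v (D (x : L)) + _
    rw [← hD', hvE, hvE, ← dife_smul_coe, ← smul_add]
    exact dife_smul_mono _ _ _ (hDV.le x)
  · intro x m hx hm
    have h1 : v (x : L) = (((Module.finrank E L : ℤ) * m : ℤ) : WithTop ℤ) := hx
    rw [hvE] at h1
    have h2 := hDV.eq x m (dife_cancel_coe _ hn _ _ h1) hm
    show v (D (x : L)) = _
    rw [← hD', hvE, h2, dife_smul_coe]

end Pool.Agent.Helper20.NP
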